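import Pool.Prelude.Def_F_b781773d
import Pool.Agent.Lib.MP_e290cc_nt.Final2

set_option autoImplicit false

/-!
# An upper bound for `A(k)` below `k log k`

`A k = N6026a1c6.A k` is the least possible largest term of an admissible sequence of length `k`
(the definition in the prelude, the one used by the frozen statements of this problem).

For all large `k`, `A(k) ≤ k log k (1 - log₄ k / (5000 log₂ k log₃ k))`, with iterated logarithms.

The large primes cost nothing.  Let `K` be about `N ^ (1 / (j + 2))`, with `j` about
`14 log log N` digits.  For a prime `p` above `z = N / M`, `M = K / 4`, with digits `p_i` to the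
base `K`, take the residue class of `∑_{i < j} p_i (K - p_i) K ^ i` modulo `p`.  Its members up to
`N` are `X s K ^ j + ∑_{i < j} p_i (K + s - p_i) K ^ i` with `s < M`, and `x ↦ x (K + s - x)` takes
at most `3 K / 4` values on the digits.  So all these classes together cover at most
`(3 / 4) ^ j N (2 + log M) ≤ 2 N / (log N) ^ 3` integers up to `N` (`Kak.lean`).

The primes in `(w, z]`, with `w` a small power of `M`, remove the class of `0`: this leaves the
products `m q` of a `w`-smooth number `m` and a prime `q > z`.  The primes up to `w` remove classes
chosen on average.  What remains has `(N / log N) (1 + (1 - o(1)) log w / log N)` elements, by the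
prime number theorem, Mertens' theorem and Rankin's trick.
-/

namespace Pool.Agent.Results.MP_e290cc_nt.LargePrimesFree

/-- For all large `k`, `A(k) ≤ k log k (1 - log₄ k / (5000 log₂ k log₃ k))`. -/
theorem result :
    ∀ᶠ k : ℕ in Filter.atTop, (N6026a1c6.A k : ℝ) ≤ k * Real.log k *
      (1 - Real.log (Real.log (Real.log (Real.log k))) /
        (5000 * Real.log (Real.log k) * Real.log (Real.log (Real.log k)))) :=
  Pool.Agent.E290.A_bound2

end Pool.Agent.Results.MP_e290cc_nt.LargePrimesFree
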