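import Pool.Prelude.Def_F_b781773d
import Pool.Agent.Lib.MP_e290cc_nt.Final2

set_option autoImplicit false

/-!
# Failure of `A(k) ~ k log k` is persistent

`A k = N6026a1c6.A k` is the least possible largest term of an admissible sequence of length `k`
(the definition in the prelude, the one used by the frozen statements of this problem).

`A` is superadditive.  Hence, if `A(K) ≤ β K log K` for infinitely many `K`, then for every
`0 < θ ≤ 1` and `γ > β / θ` there are infinitely many `K` such that `A(k) ≤ γ k log k` for ALL `k` in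
the long interval `[K ^ θ, K]`.  In particular `A(k) ~ k log k` fails if and only if for some `δ > 0`
there are infinitely many `K` such that `A(k) ≤ (1 - δ) k log k` for all `k` in `[K ^ (1 - δ), K]`.
-/

open Filter Topology Asymptotics N6026a1c6

namespace Pool.Agent.Results.MP_e290cc_nt.Persistence

/-- Admissible sets of every size exist. -/
lemma exists_adm (k : ℕ) :
    {m : ℕ | ∃ S : Finset ℕ, S.card = k ∧ IsAdmissible S ∧ ∀ a ∈ S, a ≤ m}.Nonempty := by
  classical
  set S : Finset ℕ := (Finset.range k).image (fun i => i * k.factorial) with hS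
  have hk : 0 < k.factorial := Nat.factorial_pos k
  have hcard : S.card = k := by
    rw [hS, Finset.card_image_of_injective _ (fun a b h => Nat.eq_of_mul_eq_mul_right hk h),
      Finset.card_range]
  refine ⟨S.sup id, S, hcard, ?_, fun a ha => Finset.le_sup (f := id) ha⟩
  intro p hp
  have : Fact p.Prime := ⟨hp⟩
  by_cases hpk : p ≤ k
  · refine ⟨1, fun a ha => ?_⟩
    rw [hS, Finset.mem_image] at ha
    obtain ⟨i, -, rfl⟩ := ha
    have h0 : ((k.factorial : ℕ) : ZMod p) = 0 :=
      (ZMod.natCast_eq_zero_iff _ _).2 ((hp.dvd_factorial).2 hpk)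
    push_cast
    rw [h0, mul_zero]
    exact zero_ne_one
  · by_contra hcon
    push Not at hcon
    have h1 : (Finset.univ : Finset (ZMod p)) ⊆ S.image (fun a : ℕ => (a : ZMod p)) := by
      intro r _
      obtain ⟨a, ha, h⟩ := hcon r
      exact Finset.mem_image.2 ⟨a, ha, h⟩
    have h2 := (Finset.card_le_card h1).trans Finset.card_image_le
    rw [Finset.card_univ, ZMod.card, hcard] at h2
    exact hpk h2

lemma A_spec (k : ℕ) : ∃ S : Finset ℕ, S.card = k ∧ IsAdmissible S ∧ ∀ a ∈ S, a ≤ A k :=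
  Nat.sInf_mem (exists_adm k)

lemma A_le {k m : ℕ} (S : Finset ℕ) (hc : S.card = k) (ha : IsAdmissible S)
    (hm : ∀ a ∈ S, a ≤ m) : A k ≤ m := Nat.sInf_le ⟨S, hc, ha, hm⟩

lemma A_zero : A 0 = 0 :=
  Nat.le_zero.1 (A_le ∅ rfl (fun _ _ => ⟨0, fun a ha => absurd ha (Finset.notMem_empty a)⟩)
    (fun a ha => absurd ha (Finset.notMem_empty a)))

/-- `A` is superadditive. -/
lemma A_add (a b : ℕ) : A a + A b ≤ A (a + b) := by
  classical
  rcases Nat.eq_zero_or_pos a with rfl | hapos
  · rw [A_zero, zero_add, zero_add]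
  obtain ⟨S, hc, hadm, hle⟩ := A_spec (a + b)
  set e := S.orderEmbOfFin hc with he
  have hmem : ∀ i, e i ∈ S := fun i => Finset.orderEmbOfFin_mem S hc i
  set i0 : Fin (a + b) := ⟨a - 1, by omega⟩ with hi0
  set t : ℕ := e i0 with ht
  have htle : t ≤ A (a + b) := hle _ (hmem i0)
  -- the first `a` elements
  have h1 : A a ≤ t := by
    refine A_le (Finset.univ.image (fun i : Fin a => e (Fin.castAdd b i))) ?_ ?_ ?_
    · rw [Finset.card_image_of_injective, Finset.card_univ, Fintype.card_fin]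
      intro i j h
      exact Fin.castAdd_injective a b (e.injective h)
    · intro p hp
      obtain ⟨r, hr⟩ := hadm p hp
      refine ⟨r, fun x hx => ?_⟩
      rw [Finset.mem_image] at hx
      obtain ⟨i, -, rfl⟩ := hx
      exact hr _ (hmem _)
    · intro x hx
      rw [Finset.mem_image] at hx
      obtain ⟨i, -, rfl⟩ := hx
      refine e.monotone ?_
      rw [Fin.le_def, hi0]
      have := i.2
      simp only [Fin.val_castAdd]
      omega
  -- the last `b` elements
  have hlt : ∀ i : Fin b, t < e (Fin.natAdd a i) := by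
    intro i
    refine e.strictMono ?_
    rw [Fin.lt_def, hi0]
    simp only [Fin.val_natAdd]
    omega
  have h2 : A b ≤ A (a + b) - t := by
    refine A_le (Finset.univ.image (fun i : Fin b => e (Fin.natAdd a i) - t)) ?_ ?_ ?_
    · rw [Finset.card_image_of_injective, Finset.card_univ, Fintype.card_fin]
      intro i j h
      have h3 := hlt i
      have h4 := hlt j
      simp only at h
      have h5 : e (Fin.natAdd a i) = e (Fin.natAdd a j) := by omega
      exact Fin.natAdd_injective b a (e.injective h5)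
    · intro p hp
      obtain ⟨r, hr⟩ := hadm p hp
      refine ⟨r - t, fun x hx => ?_⟩
      rw [Finset.mem_image] at hx
      obtain ⟨i, -, rfl⟩ := hx
      rw [Nat.cast_sub (hlt i).le]
      intro h
      exact hr _ (hmem _) (sub_left_injective h)
    · intro x hx
      rw [Finset.mem_image] at hx
      obtain ⟨i, -, rfl⟩ := hx
      exact Nat.sub_le_sub_right (hle _ (hmem _)) t
  omega

lemma A_mono {k l : ℕ} (h : k ≤ l) : A k ≤ A l := by
  obtain ⟨d, rfl⟩ := Nat.exists_eq_add_of_le h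
  exact (Nat.le_add_right _ _).trans (A_add k d)

lemma A_mul (m k : ℕ) : m * A k ≤ A (m * k) := by
  induction m with
  | zero => simp
  | succ m ih =>
    rw [Nat.succ_mul, Nat.succ_mul]
    exact (Nat.add_le_add_right ih _).trans (A_add _ _)

lemma A_div (k l : ℕ) : (k / l) * A l ≤ A k :=
  (A_mul _ _).trans (A_mono (Nat.div_mul_le_self k l))

/-- `A(k) ≤ k log k` for all large `k`. -/
lemma A_upper : ∀ᶠ k : ℕ in atTop, (A k : ℝ) ≤ k * Real.log k := by
  have tk : Tendsto (fun k : ℕ => (k : ℝ)) atTop atTop := tendsto_natCast_atTop_atTop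
  have t1 : Tendsto (fun k : ℕ => Real.log (k : ℝ)) atTop atTop := Real.tendsto_log_atTop.comp tk
  have t2 : Tendsto (fun k : ℕ => Real.log (Real.log (k : ℝ))) atTop atTop :=
    Real.tendsto_log_atTop.comp t1
  have t3 : Tendsto (fun k : ℕ => Real.log (Real.log (Real.log (k : ℝ)))) atTop atTop :=
    Real.tendsto_log_atTop.comp t2
  have t4 : Tendsto (fun k : ℕ => Real.log (Real.log (Real.log (Real.log (k : ℝ))))) atTop atTop :=
    Real.tendsto_log_atTop.comp t3
  filter_upwards [Pool.Agent.E290.A_bound2, t1.eventually_ge_atTop 0, t2.eventually_ge_atTop 0,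
    t3.eventually_ge_atTop 0, t4.eventually_ge_atTop 0] with k h h1 h2 h3 h4
  refine h.trans ?_
  have h5 : 0 ≤ (k : ℝ) * Real.log k := mul_nonneg (Nat.cast_nonneg k) h1
  have h6 : 0 ≤ Real.log (Real.log (Real.log (Real.log k))) /
      (5000 * Real.log (Real.log k) * Real.log (Real.log (Real.log k))) := by positivity
  nlinarith

/-- The main step. -/
lemma persist {β θ γ : ℝ} (hβ : 0 ≤ β) (hθ : 0 < θ) (hγ : β / θ < γ)
    (h : ∃ᶠ K : ℕ in atTop, (A K : ℝ) ≤ β * (K * Real.log K)) :
    ∃ᶠ K : ℕ in atTop, ∀ k : ℕ, (K : ℝ) ^ θ ≤ k → k ≤ K →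
      (A k : ℝ) ≤ γ * (k * Real.log k) := by
  obtain ⟨δ, hδ⟩ : ∃ δ : ℝ, δ = min 1 ((γ - β / θ) * θ / (3 * β + 1)) := ⟨_, rfl⟩
  have hγ' : 0 < γ - β / θ := sub_pos.2 hγ
  have hδ0 : 0 < δ := by
    rw [hδ]
    exact lt_min one_pos (by positivity)
  have hδ1 : δ ≤ 1 := by rw [hδ]; exact min_le_left _ _
  have hδβ : β * (1 + δ) ^ 2 ≤ γ * θ := by
    have h1 : δ ≤ (γ - β / θ) * θ / (3 * β + 1) := by rw [hδ]; exact min_le_right _ _
    rw [le_div_iff₀ (by positivity)] at h1
    have h2 : (γ - β / θ) * θ = γ * θ - β := by field_simp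
    rw [h2] at h1
    have h3 : β * (1 + δ) ^ 2 ≤ β + β * (3 * δ) := by
      have h4 : δ ^ 2 ≤ δ := by nlinarith
      nlinarith [mul_nonneg hβ hδ0.le, mul_le_mul_of_nonneg_left h4 hβ]
    nlinarith
  obtain ⟨L, hL⟩ := exists_nat_ge (1 / δ)
  have hLpos' : (0 : ℝ) < L := lt_of_lt_of_le (by positivity) hL
  have hLpos : 0 < L := by exact_mod_cast hLpos'
  rw [frequently_atTop] at h ⊢
  intro N
  have tk : Tendsto (fun k : ℕ => (k : ℝ)) atTop atTop := tendsto_natCast_atTop_atTop
  have t1 : Tendsto (fun k : ℕ => Real.log (k : ℝ)) atTop atTop := Real.tendsto_log_atTop.comp tk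
  obtain ⟨N1, hN1⟩ := eventually_atTop.1 (t1.eventually_ge_atTop (Real.log (2 * L) / δ))
  obtain ⟨k0, hk0, hA⟩ := h (L * (N + N1 + 1))
  obtain ⟨K, hK⟩ : ∃ K : ℕ, K = k0 / L := ⟨_, rfl⟩
  have hKN : N + N1 + 1 ≤ K := by
    rw [hK, Nat.le_div_iff_mul_le hLpos, mul_comm]
    exact hk0
  refine ⟨K, by omega, fun k hk1 hk2 => ?_⟩
  have hKpos : 0 < K := by omega
  have hKr : (0 : ℝ) < K := by exact_mod_cast hKpos
  have hkr : (0 : ℝ) < k := lt_of_lt_of_le (Real.rpow_pos_of_pos hKr _) hk1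
  have hkpos : 0 < k := by exact_mod_cast hkr
  -- logarithms
  have hlogK : Real.log (2 * L) / δ ≤ Real.log K := hN1 K (by omega)
  have hlog2L : Real.log (2 * L) ≤ δ * Real.log K := by
    rw [div_le_iff₀ hδ0] at hlogK
    linarith
  have hlogk : θ * Real.log K ≤ Real.log k := by
    have h1 := Real.log_le_log (Real.rpow_pos_of_pos hKr _) hk1
    rwa [Real.log_rpow hKr] at h1
  have hk0K : (k0 : ℝ) ≤ 2 * L * K := by
    have h1 : k0 < L * (K + 1) := by
      rw [hK]
      exact Nat.lt_mul_div_succ k0 hLpos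
    have h2 : k0 ≤ 2 * L * K := by nlinarith
    exact_mod_cast h2
  have hk0pos : (0 : ℝ) < k0 := by
    have : 0 < k0 := by
      rcases Nat.eq_zero_or_pos k0 with h0 | h0
      · rw [h0, Nat.zero_div] at hK
        omega
      · exact h0
    exact_mod_cast this
  have hlogk0 : Real.log k0 ≤ (1 + δ) * Real.log K := by
    have h1 := Real.log_le_log hk0pos hk0K
    rw [Real.log_mul (by positivity) hKr.ne'] at h1
    linarith
  have hlogk00 : 0 ≤ Real.log k0 := Real.log_natCast_nonneg k0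
  -- the quotient
  obtain ⟨q, hq⟩ : ∃ q : ℕ, q = k0 / k := ⟨_, rfl⟩
  have hqL : L ≤ q := by
    rw [hq, Nat.le_div_iff_mul_le hkpos]
    calc L * k ≤ L * K := Nat.mul_le_mul_left _ hk2
      _ ≤ k0 := by rw [hK]; exact Nat.mul_div_le k0 L
  have hqL' : (L : ℝ) ≤ q := by exact_mod_cast hqL
  have hqr : (0 : ℝ) < q := hLpos'.trans_le hqL'
  have hqk : (k0 : ℝ) ≤ (q + 1) * k := by
    have h1 : k0 < k * (q + 1) := by
      rw [hq]
      exact Nat.lt_mul_div_succ k0 hkpos
    have h2 : k0 ≤ (q + 1) * k := by rw [mul_comm]; exact h1.le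
    exact_mod_cast h2
  have hqA : (q : ℝ) * A k ≤ A k0 := by
    have := A_div k0 k
    rw [← hq] at this
    exact_mod_cast this
  have hq1 : (q : ℝ) + 1 ≤ q * (1 + δ) := by
    have h1 : 1 ≤ δ * q := by
      have h2 : 1 / δ ≤ q := hL.trans hqL'
      rw [div_le_iff₀ hδ0] at h2
      linarith
    linarith
  -- conclusion
  have h1 : (q : ℝ) * A k ≤ q * (β * ((1 + δ) * (k * Real.log k0))) := by
    calc (q : ℝ) * A k ≤ β * (k0 * Real.log k0) := hqA.trans hA
      _ ≤ β * ((q * (1 + δ) * k) * Real.log k0) := by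
          refine mul_le_mul_of_nonneg_left ?_ hβ
          refine mul_le_mul_of_nonneg_right ?_ hlogk00
          exact hqk.trans (mul_le_mul_of_nonneg_right hq1 hkr.le)
      _ = q * (β * ((1 + δ) * (k * Real.log k0))) := by ring
  have h2 : (A k : ℝ) ≤ β * ((1 + δ) * (k * Real.log k0)) := le_of_mul_le_mul_left h1 hqr
  have h3 : θ * Real.log k0 ≤ (1 + δ) * Real.log k := by
    calc θ * Real.log k0 ≤ θ * ((1 + δ) * Real.log K) :=
          mul_le_mul_of_nonneg_left hlogk0 hθ.le
      _ = (1 + δ) * (θ * Real.log K) := by ring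
      _ ≤ (1 + δ) * Real.log k := mul_le_mul_of_nonneg_left hlogk (by linarith)
  have hlogk' : 0 ≤ Real.log k := Real.log_natCast_nonneg k
  have h4 : θ * A k ≤ θ * (γ * (k * Real.log k)) := by
    calc θ * A k ≤ θ * (β * ((1 + δ) * (k * Real.log k0))) :=
          mul_le_mul_of_nonneg_left h2 hθ.le
      _ = β * (1 + δ) * k * (θ * Real.log k0) := by ring
      _ ≤ β * (1 + δ) * k * ((1 + δ) * Real.log k) := by
          refine mul_le_mul_of_nonneg_left h3 ?_
          exact mul_nonneg (mul_nonneg hβ (by linarith)) hkr.le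
      _ = (β * (1 + δ) ^ 2) * (k * Real.log k) := by ring
      _ ≤ (γ * θ) * (k * Real.log k) :=
          mul_le_mul_of_nonneg_right hδβ (mul_nonneg hkr.le hlogk')
      _ = θ * (γ * (k * Real.log k)) := by ring
  exact le_of_mul_le_mul_left h4 hθ

/-- **Small values of `A(k) / (k log k)` persist.**  Let `β ≥ 0`, `0 < θ ≤ 1` and `γ > β / θ`.  If
`A(K) ≤ β K log K` for infinitely many `K`, then for infinitely many `K` one has
`A(k) ≤ γ k log k` for all integers `k` with `K ^ θ ≤ k ≤ K`.  In particular `A(k) ~ k log k` is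
false if and only if there is `δ` with `0 < δ < 1` such that for infinitely many `K` one has
`A(k) ≤ (1 - δ) k log k` for all integers `k` with `K ^ (1 - δ) ≤ k ≤ K`. -/
theorem result :
    (∀ β θ γ : ℝ, 0 ≤ β → 0 < θ → θ ≤ 1 → β / θ < γ →
      (∃ᶠ K : ℕ in atTop, (A K : ℝ) ≤ β * (K * Real.log K)) →
      ∃ᶠ K : ℕ in atTop, ∀ k : ℕ, (K : ℝ) ^ θ ≤ k → k ≤ K →
        (A k : ℝ) ≤ γ * (k * Real.log k)) ∧
    ((¬ (fun k : ℕ ↦ (A k : ℝ)) ~[atTop] fun k : ℕ ↦ (k : ℝ) * Real.log k) ↔
      ∃ δ : ℝ, 0 < δ ∧ δ < 1 ∧ ∃ᶠ K : ℕ in atTop, ∀ k : ℕ, (K : ℝ) ^ (1 - δ) ≤ k → k ≤ K →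
        (A k : ℝ) ≤ (1 - δ) * (k * Real.log k)) := by
  refine ⟨fun β θ γ hβ hθ _ hγ h => persist hβ hθ hγ h, ?_, ?_⟩
  · intro hne
    by_contra hcon
    apply hne
    have key : ∀ ε : ℝ, 0 < ε → ε ≤ 1 / 2 →
        ∀ᶠ k : ℕ in atTop, (1 - ε) * (k * Real.log k) < (A k : ℝ) := by
      intro ε hε hε1
      by_contra h
      rw [not_eventually] at h
      apply hcon
      refine ⟨ε / 8, by positivity, by linarith,
        persist (β := 1 - ε) (by linarith) (by linarith) ?_ (h.mono fun k hk => ?_)⟩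
      · rw [div_lt_iff₀ (by linarith)]
        nlinarith
      · exact not_lt.1 hk
    rw [IsEquivalent, isLittleO_iff]
    intro c hc
    filter_upwards [key (min c (1 / 2)) (lt_min hc (by norm_num)) (min_le_right _ _), A_upper]
      with k h1 h2
    have h3 : 0 ≤ (k : ℝ) * Real.log k :=
      mul_nonneg (Nat.cast_nonneg k) (Real.log_natCast_nonneg k)
    rw [Pi.sub_apply, Real.norm_eq_abs, Real.norm_eq_abs, abs_of_nonneg h3, abs_le]
    have h4 : min c (1 / 2) * (k * Real.log k) ≤ c * (k * Real.log k) :=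
      mul_le_mul_of_nonneg_right (min_le_left _ _) h3
    constructor
    · linarith
    · have : 0 ≤ c * (k * Real.log k) := mul_nonneg hc.le h3
      linarith
  · rintro ⟨δ, hδ0, hδ1, hfr⟩ heq
    rw [IsEquivalent, isLittleO_iff] at heq
    have h1 := heq (show (0 : ℝ) < δ / 2 by positivity)
    have tk : Tendsto (fun k : ℕ => (k : ℝ)) atTop atTop := tendsto_natCast_atTop_atTop
    have t1 : Tendsto (fun k : ℕ => Real.log (k : ℝ)) atTop atTop :=
      Real.tendsto_log_atTop.comp tk
    obtain ⟨K, hK, h2, h3, h4⟩ := (hfr.and_eventually (h1.and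
      ((eventually_ge_atTop 1).and (t1.eventually_gt_atTop 0)))).exists
    have hKr : (1 : ℝ) ≤ K := by exact_mod_cast h3
    have h5 := hK K (by
      calc (K : ℝ) ^ (1 - δ) ≤ (K : ℝ) ^ (1 : ℝ) :=
            Real.rpow_le_rpow_of_exponent_le hKr (by linarith)
        _ = K := Real.rpow_one _) le_rfl
    have h6 : 0 < (K : ℝ) * Real.log K := mul_pos (by linarith) h4
    rw [Pi.sub_apply, Real.norm_eq_abs, Real.norm_eq_abs, abs_of_pos h6, abs_le] at h2
    nlinarith [h2.1]

end Pool.Agent.Results.MP_e290cc_nt.Persistence
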